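import Pool.Agent.Y813.LE.Stm

set_option autoImplicit false

/-!
# The vertices around a deepest hole of a lattice without vectors of norm 2 and 8
-/

namespace Pool.Agent.Y79.LE

open Finset Pool.Agent.Y813.RL Pool.Agent.Y813.LE

section even

variable {ι : Type} [Fintype ι] [DecidableEq ι] {B : Matrix ι ι ℤ}

/-- even Gram matrices give even norms -/
theorem even_bf (hB : B.IsSymm) (he : ∀ i, Even (B i i)) (v : ι → ℤ) :
    ∃ N : ℤ, bf B v v = 2 * N := by
  let f : (ι → ℤ) →+ ZMod 2 :=
    { toFun := fun v => ((bf B v v : ℤ) : ZMod 2)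
      map_zero' := by rw [bf_zero_left]; simp
      map_add' := by
        intro x y
        rw [bf_add_left, bf_add_right, bf_add_right, bf_comm hB y x]
        push_cast
        have : (2 : ZMod 2) = 0 := rfl
        linear_combination ((bf B x y : ℤ) : ZMod 2) * this }
  have hf : f = 0 := by
    apply AddMonoidHom.functions_ext
    intro i n
    have h1 : bf B (Pi.single i n) (Pi.single i n) = n * B i i * n := by
      simp [bf, Pi.single_apply]
    have h2 : ((B i i : ℤ) : ZMod 2) = 0 := by
      have := (he i).two_dvd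
      exact (ZMod.intCast_zmod_eq_zero_iff_dvd _ 2).2 (by exact_mod_cast this)
    show ((bf B (Pi.single i n) (Pi.single i n) : ℤ) : ZMod 2) = 0
    rw [h1]
    push_cast
    rw [h2]
    simp
  have := DFunLike.congr_fun hf v
  have h3 : ((bf B v v : ℤ) : ZMod 2) = 0 := this
  have h4 := (ZMod.intCast_zmod_eq_zero_iff_dvd _ 2).1 h3
  obtain ⟨N, hN⟩ := h4
  exact ⟨N, by exact_mod_cast hN⟩

end even

variable {r : ℕ} {G : Matrix (Fin r) (Fin r) ℤ}

/-- squared distance of lattice vectors -/
def N (G : Matrix (Fin r) (Fin r) ℤ) (a b : Fin r → ℤ) : ℤ := bf G (a - b) (a - b)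

theorem N_comm (a b : Fin r → ℤ) : N G a b = N G b a := by
  unfold N
  rw [← neg_sub b a, bf_neg_left, bf_neg_right, neg_neg]

theorem N_self (a : Fin r → ℤ) : N G a a = 0 := by
  unfold N
  rw [sub_self, bf_zero_left]

theorem norm_pos (hG : ER G) {v : Fin r → ℤ} (hv : v ≠ 0) : 0 < bf G v v := by
  have h1 : (fun i => (v i : ℝ)) ≠ 0 := by
    intro h
    apply hv
    funext i
    have := congrFun h i
    simp only [Pi.zero_apply, Int.cast_eq_zero] at this
    exact this
  have h2 := hG.pos _ h1
  rw [bf_intCast] at h2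
  exact_mod_cast h2

theorem norm_nonneg (hG : ER G) (v : Fin r → ℤ) : 0 ≤ bf G v v := by
  by_cases h : v = 0
  · rw [h, bf_zero_left]
  · exact (norm_pos hG h).le

theorem real_nonneg (hG : ER G) (v : Fin r → ℝ) : 0 ≤ bf G v v := by
  by_cases h : v = 0
  · rw [h, bf_zero_left]
  · exact (hG.pos v h).le

theorem norm_ev (hG : ER G) (v : Fin r → ℤ) : ∃ k : ℤ, bf G v v = 2 * k :=
  even_bf hG.symm hG.even v

theorem N_four (hG : ER G) (a b c d : Fin r → ℤ) :
    bf G (a + b - c - d) (a + b - c - d) =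
      N G a c + N G a d + N G b c + N G b d - N G a b - N G c d := by
  have h := bf_comm (R := ℤ) hG.symm
  unfold N
  simp only [bf_sub_left, bf_sub_right, bf_add_left, bf_add_right]
  rw [h b a, h c a, h d a, h c b, h d b, h d c]
  ring

theorem N_six (hG : ER G) (a b c d e f : Fin r → ℤ) :
    bf G (a + b + c - d - e - f) (a + b + c - d - e - f) =
      N G a d + N G a e + N G a f + N G b d + N G b e + N G b f + N G c d + N G c e + N G c f -
        N G a b - N G a c - N G b c - N G d e - N G d f - N G e f := by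
  have h := bf_comm (R := ℤ) hG.symm
  unfold N
  simp only [bf_sub_left, bf_sub_right, bf_add_left, bf_add_right]
  rw [h b a, h c a, h d a, h e a, h f a, h c b, h d b, h e b, h f b, h d c, h e c, h f c, h e d,
    h f d, h f e]
  ring

/-- the orthogonality computation -/
theorem orth (hG : ER G) (h8 : ∀ u : Fin r → ℤ, bf G u u ≠ 8) {w t s : Fin r → ℤ}
    (hw : w = t + (s + s)) (ht : bf G t t = 6) (hw10 : bf G w w = 10) : bf G t w = 0 := by
  have h := bf_comm (R := ℤ) hG.symm
  -- `|s|² + |t + s|² = 8`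
  have h1 : bf G w w = bf G t t + 4 * bf G t s + 4 * bf G s s := by
    rw [hw]
    simp only [bf_add_left, bf_add_right]
    rw [h s t]
    ring
  have h2 : bf G (t + s) (t + s) = bf G t t + 2 * bf G t s + bf G s s := by
    simp only [bf_add_left, bf_add_right]
    rw [h s t]
    ring
  have h3 : bf G t w = bf G t t + 2 * bf G t s := by
    rw [hw]
    simp only [bf_add_right]
    ring
  obtain ⟨k, hk⟩ := norm_ev hG s
  obtain ⟨l, hl⟩ := norm_ev hG (t + s)
  have n1 := norm_nonneg hG s
  have n2 := norm_nonneg hG (t + s)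
  have r1 := hG.noroot s
  have r2 := hG.noroot (t + s)
  have e1 := h8 s
  have e2 := h8 (t + s)
  omega

theorem exists_orth (hG : ER G) (hC : Cov G) (h8 : ∀ u : Fin r → ℤ, bf G u u ≠ 8)
    (w : Fin r → ℤ) (hw : bf G w w = 10) :
    ∃ t : Fin r → ℤ, bf G t t = 6 ∧ bf G t w = 0 ∧
      ∀ u : Fin r → ℤ, bf G (w + (u + u)) (w + (u + u)) = 10 → bf G t (w + (u + u)) = 0 := by
  obtain ⟨s, hs⟩ := hC (fun i => (w i : ℝ) / 2)
  set t : Fin r → ℤ := w - (s + s) with ht
  have hws : w = t + (s + s) := by rw [ht]; abel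
  have h1 : ((bf G t t : ℤ) : ℝ) ≤ 8 := by
    have h2 : (fun i => (t i : ℝ)) = (2 : ℝ) • (fun i => (w i : ℝ) / 2 - (s i : ℝ)) := by
      funext i
      simp only [ht, Pi.sub_apply, Pi.add_apply, Pi.smul_apply, smul_eq_mul]
      push_cast
      ring
    have h3 := bf_intCast (R := ℝ) G t t
    rw [← h3, h2, bf_smul_left, bf_smul_right]
    unfold sd at hs
    linarith
  have h1' : bf G t t ≤ 8 := by exact_mod_cast h1
  have h := bf_comm (R := ℤ) hG.symm
  have e1 : bf G w w = bf G t t + 4 * bf G t s + 4 * bf G s s := by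
    rw [hws]
    simp only [bf_add_left, bf_add_right]
    rw [h s t]
    ring
  have e2 : bf G (t + s) (t + s) = bf G t t + 2 * bf G t s + bf G s s := by
    simp only [bf_add_left, bf_add_right]
    rw [h s t]
    ring
  obtain ⟨k, hk⟩ := norm_ev hG s
  obtain ⟨l, hl⟩ := norm_ev hG (t + s)
  obtain ⟨j, hj⟩ := norm_ev hG t
  have n1 := norm_nonneg hG t
  have r1 := hG.noroot t
  have r2 := h8 t
  have ht0 : bf G t t ≠ 0 := by
    intro h0
    have ht' : t = 0 := by
      by_contra hne
      exact (norm_pos hG hne).ne' h0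
    rw [ht', bf_zero_left] at e1
    rw [bf_zero_left] at e1
    omega
  have ht6 : bf G t t = 6 := by omega
  refine ⟨t, ht6, orth hG h8 hws ht6 hw, fun u hu => ?_⟩
  refine orth hG h8 (s := s + u) ?_ ht6 hu
  rw [hws]
  abel

/-! ### The vertices of the hole -/

/-- a deepest hole -/
structure Hole (G : Matrix (Fin r) (Fin r) ℤ) (x : Fin r → ℝ) (ρ : ℝ) : Prop where
  er : ER G
  cov : Cov G
  no8 : ∀ u : Fin r → ℤ, bf G u u ≠ 8
  le : ρ ≤ 2
  ne : ∃ v : Fin r → ℤ, sd G x v = ρ
  sur : ∀ d : Fin r → ℝ, d ≠ 0 → ∃ v : Fin r → ℤ, sd G x v = ρ ∧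
    0 < bf G d (fun i => (v i : ℝ) - x i)

variable {x : Fin r → ℝ} {ρ : ℝ}

/-- the vector from the hole to a lattice point -/
def pt (x : Fin r → ℝ) (v : Fin r → ℤ) : Fin r → ℝ := fun i => (v i : ℝ) - x i

theorem sd_eq (v : Fin r → ℤ) : sd G x v = bf G (pt x v) (pt x v) := by
  have h : (fun i => x i - (v i : ℝ)) = -pt x v := by
    funext i
    simp only [pt, Pi.neg_apply]
    ring
  unfold sd
  rw [h, bf_neg_left, bf_neg_right, neg_neg]

theorem inner_eq (H : Hole G x ρ) {a b : Fin r → ℤ} (ha : sd G x a = ρ) (hb : sd G x b = ρ) :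
    bf G (pt x a) (pt x b) = ρ - (N G a b : ℝ) / 2 := by
  rw [sd_eq] at ha hb
  have h1 : bf G (pt x a - pt x b) (pt x a - pt x b) = (N G a b : ℝ) := by
    have h2 : pt x a - pt x b = fun i => (((a - b) i : ℤ) : ℝ) := by
      funext i
      simp only [pt, Pi.sub_apply]
      push_cast
      ring
    rw [h2, bf_intCast]
    rfl
  rw [bf_sub_left, bf_sub_right, bf_sub_right, ha, hb, bf_comm H.er.symm (pt x b)] at h1
  linarith

theorem N_cases (H : Hole G x ρ) {a b : Fin r → ℤ} (ha : sd G x a = ρ) (hb : sd G x b = ρ)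
    (hab : a ≠ b) : N G a b = 4 ∨ N G a b = 6 := by
  have h1 := real_nonneg H.er (pt x a + pt x b)
  have ha' := ha
  have hb' := hb
  rw [sd_eq] at ha' hb'
  rw [bf_add_left, bf_add_right, bf_add_right, bf_comm H.er.symm (pt x b) (pt x a),
    inner_eq H ha hb, ha', hb'] at h1
  have h2 : (N G a b : ℝ) ≤ 8 := by linarith [H.le]
  have h3 : N G a b ≤ 8 := by exact_mod_cast h2
  have h4 : 0 < N G a b := norm_pos H.er (sub_ne_zero.2 hab)
  obtain ⟨k, hk⟩ := norm_ev H.er (a - b)
  have h5 : N G a b = 2 * k := hk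
  have h6 : N G a b ≠ 2 := H.er.noroot (a - b)
  have h7 : N G a b ≠ 8 := H.no8 (a - b)
  omega

/-- a nonzero vector is not orthogonal to all differences of vertices -/
theorem span (H : Hole G x ρ) (d : Fin r → ℝ)
    (h : ∀ v w : Fin r → ℤ, sd G x v = ρ → sd G x w = ρ →
      bf G d (fun i => (((v - w) i : ℤ) : ℝ)) = 0) : d = 0 := by
  by_contra hd
  obtain ⟨v, hv, h1⟩ := H.sur d hd
  obtain ⟨w, hw, h2⟩ := H.sur (-d) (neg_ne_zero.2 hd)
  rw [bf_neg_left] at h2
  have h3 := h v w hv hw
  have h4 : (fun i => (((v - w) i : ℤ) : ℝ)) = (fun i => (v i : ℝ) - x i) -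
      (fun i => (w i : ℝ) - x i) := by
    funext i
    simp only [Pi.sub_apply]
    push_cast
    ring
  rw [h4, bf_sub_right] at h3
  linarith

theorem span_int (H : Hole G x ρ) (t : Fin r → ℤ)
    (h : ∀ v w : Fin r → ℤ, sd G x v = ρ → sd G x w = ρ → bf G t (v - w) = 0) : t = 0 := by
  have h1 := span H (fun i => (t i : ℝ)) (fun v w hv hw => by
    rw [bf_intCast, h v w hv hw]
    simp)
  funext i
  have := congrFun h1 i
  simpa using this

/-- the conditions on four vertices -/
theorem four (H : Hole G x ρ) {a b c d : Fin r → ℤ} (ha : sd G x a = ρ) (hb : sd G x b = ρ)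
    (hc : sd G x c = ρ) (hd : sd G x d = ρ) (hab : a ≠ b) (hac : a ≠ c) (had : a ≠ d)
    (hbc : b ≠ c) (hbd : b ≠ d) (hcd : c ≠ d) :
    N G a c + N G a d + N G b c + N G b d - N G a b - N G c d ≠ 8 ∧
    N G a b + N G a d + N G b c + N G c d - N G a c - N G b d ≠ 8 ∧
    N G a b + N G a c + N G b d + N G c d - N G a d - N G b c ≠ 8 ∧
    N G a b + N G a c + N G a d + N G b c + N G b d + N G c d ≤ 32 := by
  have c1 := N_cases H ha hb hab
  have c2 := N_cases H ha hc hac
  have c3 := N_cases H ha hd had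
  have c4 := N_cases H hb hc hbc
  have c5 := N_cases H hb hd hbd
  have c6 := N_cases H hc hd hcd
  have e1 := N_four H.er a b c d
  have e2 := N_four H.er a c b d
  have e3 := N_four H.er a d b c
  have n1 := H.no8 (a + b - c - d)
  have n2 := H.no8 (a + c - b - d)
  have n3 := H.no8 (a + d - b - c)
  rw [N_comm c b] at e2
  rw [N_comm d b, N_comm d c] at e3
  refine ⟨by omega, by omega, by omega, ?_⟩
  by_contra hc34
  push Not at hc34
  -- inner products
  have i1 := inner_eq H ha hb
  have i2 := inner_eq H ha hc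
  have i3 := inner_eq H ha hd
  have i4 := inner_eq H hb hc
  have i5 := inner_eq H hb hd
  have i6 := inner_eq H hc hd
  have s1 := ha
  have s2 := hb
  have s3 := hc
  have s4 := hd
  rw [sd_eq] at s1 s2 s3 s4
  have hcm := bf_comm (R := ℝ) H.er.symm
  have hle := H.le
  -- the general quadratic form
  have hq : ∀ α β γ δ : ℝ, 0 ≤ (α ^ 2 + β ^ 2 + γ ^ 2 + δ ^ 2) * ρ +
      2 * (α * β * (ρ - (N G a b : ℝ) / 2) + α * γ * (ρ - (N G a c : ℝ) / 2) +
        α * δ * (ρ - (N G a d : ℝ) / 2) + β * γ * (ρ - (N G b c : ℝ) / 2) +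
        β * δ * (ρ - (N G b d : ℝ) / 2) + γ * δ * (ρ - (N G c d : ℝ) / 2)) := by
    intro α β γ δ
    have h := real_nonneg H.er (α • pt x a + β • pt x b + γ • pt x c + δ • pt x d)
    simp only [bf_add_left, bf_add_right, bf_smul_left, bf_smul_right] at h
    rw [hcm (pt x b) (pt x a), hcm (pt x c) (pt x a), hcm (pt x d) (pt x a),
      hcm (pt x c) (pt x b), hcm (pt x d) (pt x b), hcm (pt x d) (pt x c), i1, i2, i3, i4, i5, i6,
      s1, s2, s3, s4] at h
    linarith
  have hall := hq 1 1 1 1
  have k1 := hq 1 1 2 2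
  have k2 := hq 1 2 1 2
  have k3 := hq 1 2 2 1
  have k4 := hq 2 1 1 2
  have k5 := hq 2 1 2 1
  have k6 := hq 2 2 1 1
  rcases c1 with c1 | c1 <;> rcases c2 with c2 | c2 <;> rcases c3 with c3 | c3 <;>
    rcases c4 with c4 | c4 <;> rcases c5 with c5 | c5 <;> rcases c6 with c6 | c6 <;>
    first
    | (exfalso; omega)
    | (rw [c1, c2, c3, c4, c5, c6] at hall k1 k2 k3 k4 k5 k6
       push_cast at hall k1 k2 k3 k4 k5 k6
       linarith)

/-! ### The combinatorics -/

theorem ne_of6 {a b : Fin r → ℤ} (h : N G a b = 6) : a ≠ b := by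
  rintro rfl
  rw [N_self] at h
  omega

theorem ne_of4 {a b : Fin r → ℤ} (h : N G a b = 4) : a ≠ b := by
  rintro rfl
  rw [N_self] at h
  omega

/-- there are no claws -/
theorem no_claw (H : Hole G x ρ) {v a b c : Fin r → ℤ} (hv : sd G x v = ρ) (ha : sd G x a = ρ)
    (hb : sd G x b = ρ) (hc : sd G x c = ρ) (h1 : N G v a = 6) (h2 : N G v b = 6)
    (h3 : N G v c = 6) (hab : N G a b = 4) (hac : N G a c = 4) (hbc : N G b c = 4) : False := by
  have hV : ∀ e, sd G x e = ρ → e = v ∨ e = a ∨ e = b ∨ e = c := by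
    intro e he
    by_contra hne
    push Not at hne
    obtain ⟨e1, e2, e3, e4⟩ := hne
    have c1 := N_cases H he hv e1
    have c2 := N_cases H he ha e2
    have c3 := N_cases H he hb e3
    have c4 := N_cases H he hc e4
    have m1 := N_comm (G := G) v a
    have m2 := N_comm (G := G) v b
    have m3 := N_comm (G := G) v c
    have m4 := N_comm (G := G) a b
    have m5 := N_comm (G := G) a c
    have m6 := N_comm (G := G) b c
    have k1 := four H he hv ha hb e1 e2 e3 (ne_of6 h1) (ne_of6 h2) (ne_of4 hab)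
    have k2 := four H he hv ha hc e1 e2 e4 (ne_of6 h1) (ne_of6 h3) (ne_of4 hac)
    have k3 := four H he hv hb hc e1 e3 e4 (ne_of6 h2) (ne_of6 h3) (ne_of4 hbc)
    have k4 := four H he ha hb hc e2 e3 e4 (ne_of4 hab) (ne_of4 hac) (ne_of4 hbc)
    omega
  have q1 : bf G (v + a - b - c) (v + a - b - c) = 10 := by
    rw [N_four H.er, h1, h2, h3, hab, hac, hbc]
    norm_num
  have q2 : bf G (v + b - a - c) (v + b - a - c) = 10 := by
    rw [N_four H.er, N_comm b a, h1, h2, h3, hab, hac, hbc]
    norm_num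
  have q3 : bf G (v + c - a - b) (v + c - a - b) = 10 := by
    rw [N_four H.er, N_comm c a, N_comm c b, h1, h2, h3, hab, hac, hbc]
    norm_num
  obtain ⟨t, ht6, ht1, ht2⟩ := exists_orth H.er H.cov H.no8 _ q1
  have r2 : v + b - a - c = (v + a - b - c) + ((b - a) + (b - a)) := by abel
  have r3 : v + c - a - b = (v + a - b - c) + ((c - a) + (c - a)) := by abel
  rw [r2] at q2
  rw [r3] at q3
  have o2 := ht2 _ q2
  have o3 := ht2 _ q3
  simp only [bf_add_right, bf_sub_right] at ht1 o2 o3
  have ht0 : t = 0 := by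
    apply span_int H
    intro y z hy hz
    rw [bf_sub_right]
    rcases hV y hy with rfl | rfl | rfl | rfl <;> rcases hV z hz with rfl | rfl | rfl | rfl <;>
      omega
  rw [ht0, bf_zero_left] at ht6
  omega

/-- every vertex has at most two neighbours -/
theorem deg (H : Hole G x ρ) {v a b c : Fin r → ℤ} (hv : sd G x v = ρ) (ha : sd G x a = ρ)
    (hb : sd G x b = ρ) (hc : sd G x c = ρ) (h1 : N G v a = 6) (h2 : N G v b = 6)
    (h3 : N G v c = 6) (hab : a ≠ b) (hac : a ≠ c) (hbc : b ≠ c) : False := by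
  have c1 := N_cases H ha hb hab
  have c2 := N_cases H ha hc hac
  have c3 := N_cases H hb hc hbc
  have k := four H hv ha hb hc (ne_of6 h1) (ne_of6 h2) (ne_of6 h3) hab hac hbc
  have := no_claw H hv ha hb hc h1 h2 h3
  have h4 : N G a b = 4 := by omega
  have h5 : N G a c = 4 := by omega
  have h6 : N G b c = 4 := by omega
  exact this h4 h5 h6

/-- patterns from enumerations of the vertices -/
theorem pat_of (H : Hole G x ρ) {n : ℕ} (adj : Fin n → Fin n → Bool) (l : List (Fin n))
    (f : Fin n → Fin r → ℤ)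
    (h1 : ∀ i ∈ l, ∀ j ∈ l, i ≠ j → N G (f i) (f j) = if adj i j then 6 else 4)
    (h2 : ∀ z, sd G x z = ρ → ∃ i ∈ l, z = f i) : HasPat G adj l := by
  refine ⟨f, h1, fun d hd => ?_⟩
  apply span H
  intro v w hv hw
  obtain ⟨i, hi, rfl⟩ := h2 v hv
  obtain ⟨j, hj, rfl⟩ := h2 w hw
  exact hd i hi j hj

/-- the case of an induced path on three vertices -/
theorem pent (H : Hole G x ρ) {a v b : Fin r → ℤ} (ha : sd G x a = ρ) (hv : sd G x v = ρ)
    (hb : sd G x b = ρ) (h1 : N G a v = 6) (h2 : N G v b = 6) (h3 : N G a b = 4) :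
    ∃ l ∈ pats5, HasPat G adj5 l := by
  have h1' : N G v a = 6 := by rw [N_comm]; exact h1
  have h2' : N G b v = 6 := by rw [N_comm]; exact h2
  have h3' : N G b a = 4 := by rw [N_comm]; exact h3
  have key : ∀ e, sd G x e = ρ → e ≠ a → e ≠ v → e ≠ b →
      N G e v = 4 ∧ ((N G e a = 6 ∧ N G e b = 4) ∨ (N G e a = 4 ∧ N G e b = 6)) := by
    intro e he ea ev eb
    have c1 := N_cases H he ha ea
    have c2 := N_cases H he hv ev
    have c3 := N_cases H he hb eb
    have hev : N G e v = 4 := by
      rcases c2 with c2 | c2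
      · exact c2
      · exfalso
        rw [N_comm] at c2
        exact deg H hv ha hb he h1' h2 c2 (ne_of4 h3) ea.symm eb.symm
    refine ⟨hev, ?_⟩
    have k := four H he ha hv hb ea ev eb (ne_of6 h1) (ne_of4 h3) (ne_of6 h2)
    omega
  have uniqa : ∀ e f, sd G x e = ρ → sd G x f = ρ → e ≠ v → f ≠ v → N G e a = 6 → N G f a = 6 →
      e = f := by
    intro e f he hf hev hfv hea hfa
    by_contra hne
    rw [N_comm] at hea hfa
    exact deg H ha hv he hf h1 hea hfa hev.symm hfv.symm hne
  have uniqb : ∀ e f, sd G x e = ρ → sd G x f = ρ → e ≠ v → f ≠ v → N G e b = 6 → N G f b = 6 →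
      e = f := by
    intro e f he hf hev hfv hea hfa
    by_contra hne
    rw [N_comm] at hea hfa
    exact deg H hb hv he hf h2' hea hfa hev.symm hfv.symm hne
  by_cases hE : ∃ e, sd G x e = ρ ∧ e ≠ a ∧ e ≠ v ∧ e ≠ b ∧ N G e a = 6
  · obtain ⟨e, he, ea, ev, eb, hea⟩ := hE
    have ke := key e he ea ev eb
    by_cases hF : ∃ f, sd G x f = ρ ∧ f ≠ a ∧ f ≠ v ∧ f ≠ b ∧ N G f b = 6
    · obtain ⟨f, hf, fa, fv, fb, hfb⟩ := hF
      have kf := key f hf fa fv fb
      have hev : N G e v = 4 := ke.1
      have heb : N G e b = 4 := by omega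
      have hfv : N G f v = 4 := kf.1
      have hfa : N G f a = 4 := by omega
      have hef : e ≠ f := by
        rintro rfl
        omega
      have hfe : N G f e = 6 := by
        have c := N_cases H hf he hef.symm
        have k := four H he ha hv hf ea ev hef (ne_of6 h1) fa.symm fv.symm
        have m1 := N_comm (G := G) f a
        have m2 := N_comm (G := G) f v
        have m3 := N_comm (G := G) e f
        omega
      have m1 := N_comm (G := G) e a
      have m2 := N_comm (G := G) e v
      have m3 := N_comm (G := G) e b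
      have m4 := N_comm (G := G) e f
      have m5 := N_comm (G := G) f a
      have m6 := N_comm (G := G) f v
      have m7 := N_comm (G := G) f b
      refine ⟨[0, 1, 2, 3, 4], by simp [pats5], ?_⟩
      refine pat_of H adj5 _ ![a, v, b, f, e] ?_ ?_
      · intro i _ j _ hij
        fin_cases i <;> fin_cases j <;> first
          | exact absurd rfl hij
          | (simp [adj5]; omega)
      · intro z hz
        by_cases za : z = a
        · exact ⟨0, by simp, za⟩
        by_cases zv : z = v
        · exact ⟨1, by simp, zv⟩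
        by_cases zb : z = b
        · exact ⟨2, by simp, zb⟩
        rcases (key z hz za zv zb).2 with h | h
        · exact ⟨4, by simp, uniqa z e hz he zv ev h.1 hea⟩
        · exact ⟨3, by simp, uniqb z f hz hf zv fv h.2 hfb⟩
    · push Not at hF
      have hev : N G e v = 4 := ke.1
      have heb : N G e b = 4 := by omega
      have m1 := N_comm (G := G) e a
      have m2 := N_comm (G := G) e v
      have m3 := N_comm (G := G) e b
      refine ⟨[0, 1, 2, 3], by simp [pats5], ?_⟩
      refine pat_of H adj5 _ ![e, a, v, b, b] ?_ ?_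
      · intro i hi j hj hij
        fin_cases i <;> fin_cases j <;> first
          | exact absurd rfl hij
          | (exfalso; revert hi; decide)
          | (exfalso; revert hj; decide)
          | (simp [adj5]; omega)
      · intro z hz
        by_cases za : z = a
        · exact ⟨1, by simp, za⟩
        by_cases zv : z = v
        · exact ⟨2, by simp, zv⟩
        by_cases zb : z = b
        · exact ⟨3, by simp, zb⟩
        rcases (key z hz za zv zb).2 with h | h
        · exact ⟨0, by simp, uniqa z e hz he zv ev h.1 hea⟩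
        · exact absurd h.2 (hF z hz za zv zb)
  · push Not at hE
    by_cases hF : ∃ f, sd G x f = ρ ∧ f ≠ a ∧ f ≠ v ∧ f ≠ b ∧ N G f b = 6
    · obtain ⟨f, hf, fa, fv, fb, hfb⟩ := hF
      have kf := key f hf fa fv fb
      have hfv : N G f v = 4 := kf.1
      have hfa : N G f a = 4 := by omega
      have m5 := N_comm (G := G) f a
      have m6 := N_comm (G := G) f v
      have m7 := N_comm (G := G) f b
      refine ⟨[0, 1, 2, 3], by simp [pats5], ?_⟩
      refine pat_of H adj5 _ ![a, v, b, f, f] ?_ ?_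
      · intro i hi j hj hij
        fin_cases i <;> fin_cases j <;> first
          | exact absurd rfl hij
          | (exfalso; revert hi; decide)
          | (exfalso; revert hj; decide)
          | (simp [adj5]; omega)
      · intro z hz
        by_cases za : z = a
        · exact ⟨0, by simp, za⟩
        by_cases zv : z = v
        · exact ⟨1, by simp, zv⟩
        by_cases zb : z = b
        · exact ⟨2, by simp, zb⟩
        rcases (key z hz za zv zb).2 with h | h
        · exact absurd h.1 (hE z hz za zv zb)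
        · exact ⟨3, by simp, uniqb z f hz hf zv fv h.2 hfb⟩
    · push Not at hF
      refine ⟨[0, 1, 2], by simp [pats5], ?_⟩
      refine pat_of H adj5 _ ![a, v, b, b, b] ?_ ?_
      · intro i hi j hj hij
        fin_cases i <;> fin_cases j <;> first
          | exact absurd rfl hij
          | (exfalso; revert hi; decide)
          | (exfalso; revert hj; decide)
          | (simp [adj5]; omega)
      · intro z hz
        by_cases za : z = a
        · exact ⟨0, by simp, za⟩
        by_cases zv : z = v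
        · exact ⟨1, by simp, zv⟩
        by_cases zb : z = b
        · exact ⟨2, by simp, zb⟩
        rcases (key z hz za zv zb).2 with h | h
        · exact absurd h.1 (hE z hz za zv zb)
        · exact absurd h.2 (hF z hz za zv zb)

/-! ### Classes -/

/-- a class of vertices -/
structure Cls (G : Matrix (Fin r) (Fin r) ℤ) (x : Fin r → ℝ) (ρ : ℝ) (k : ℕ)
    (c : Fin 3 → Fin r → ℤ) : Prop where
  mem : ∀ i : Fin 3, i.val < k → sd G x (c i) = ρ
  adj : ∀ i j : Fin 3, i.val < k → j.val < k → i ≠ j → N G (c i) (c j) = 6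
  out : ∀ z, sd G x z = ρ → (∀ i : Fin 3, i.val < k → z ≠ c i) →
    ∀ i : Fin 3, i.val < k → N G z (c i) = 4

theorem cls_zero : Cls G x ρ 0 (fun _ => 0) :=
  ⟨fun i hi => absurd hi (by omega), fun i _ hi => absurd hi (by omega),
    fun _ _ _ i hi => absurd hi (by omega)⟩

theorem exists_cls (H : Hole G x ρ)
    (ht : ∀ a v b, sd G x a = ρ → sd G x v = ρ → sd G x b = ρ → N G a v = 6 → N G v b = 6 →
      a ≠ b → N G a b = 6)
    {v : Fin r → ℤ} (hv : sd G x v = ρ) :
    ∃ (k : ℕ) (c : Fin 3 → Fin r → ℤ), 0 < k ∧ k < 4 ∧ Cls G x ρ k c ∧ c 0 = v := by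
  by_cases h1 : ∃ w, sd G x w = ρ ∧ N G v w = 6
  · obtain ⟨w, hw, hvw⟩ := h1
    by_cases h2 : ∃ y, sd G x y = ρ ∧ N G v y = 6 ∧ w ≠ y
    · obtain ⟨y, hy, hvy, hwy⟩ := h2
      have hwy6 : N G w y = 6 := ht w v y hw hv hy (by rw [N_comm]; exact hvw) hvy hwy
      have m1 := N_comm (G := G) v w
      have m2 := N_comm (G := G) v y
      have m3 := N_comm (G := G) w y
      refine ⟨3, ![v, w, y], by norm_num, by norm_num, ⟨?_, ?_, ?_⟩, rfl⟩
      · intro i _
        fin_cases i
        · exact hv
        · exact hw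
        · exact hy
      · intro i j _ _ hij
        fin_cases i <;> fin_cases j <;> first
          | exact absurd rfl hij
          | (simp; omega)
      · intro z hz hne
        have z0 : z ≠ v := hne 0 (by norm_num)
        have z1 : z ≠ w := hne 1 (by norm_num)
        have z2 : z ≠ y := hne 2 (by norm_num)
        have c0 := N_cases H hz hv z0
        have c1 := N_cases H hz hw z1
        have c2 := N_cases H hz hy z2
        have k := four H hz hv hw hy z0 z1 z2 (ne_of6 hvw) (ne_of6 hvy) hwy
        have a0 : N G z v = 4 := by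
          rcases c0 with c0 | c0
          · exact c0
          · have e1 := ht z v w hz hv hw c0 hvw z1
            have e2 := ht z v y hz hv hy c0 hvy z2
            omega
        have a1 : N G z w = 4 := by
          rcases c1 with c1 | c1
          · exact c1
          · have e1 := ht z w v hz hw hv c1 (by omega) z0
            omega
        have a2 : N G z y = 4 := by
          rcases c2 with c2 | c2
          · exact c2
          · have e1 := ht z y v hz hy hv c2 (by omega) z0
            omega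
        intro i _
        fin_cases i
        · exact a0
        · exact a1
        · exact a2
    · push Not at h2
      have m1 := N_comm (G := G) v w
      refine ⟨2, ![v, w, w], by norm_num, by norm_num, ⟨?_, ?_, ?_⟩, rfl⟩
      · intro i _
        fin_cases i
        · exact hv
        · exact hw
        · exact hw
      · intro i j hi hj hij
        fin_cases i <;> fin_cases j <;> first
          | exact absurd rfl hij
          | (exfalso; revert hi; decide)
          | (exfalso; revert hj; decide)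
          | (simp; omega)
      · intro z hz hne
        have z0 : z ≠ v := hne 0 (by norm_num)
        have z1 : z ≠ w := hne 1 (by norm_num)
        have c0 := N_cases H hz hv z0
        have c1 := N_cases H hz hw z1
        have a0 : N G z v = 4 := by
          rcases c0 with c0 | c0
          · exact c0
          · exfalso
            rw [N_comm] at c0
            exact z1 (h2 z hz c0).symm
        have a1 : N G z w = 4 := by
          rcases c1 with c1 | c1
          · exact c1
          · have e1 := ht z w v hz hw hv c1 (by omega) z0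
            omega
        intro i _
        fin_cases i
        · exact a0
        · exact a1
        · exact a1
  · push Not at h1
    refine ⟨1, ![v, v, v], by norm_num, by norm_num, ⟨?_, ?_, ?_⟩, rfl⟩
    · intro i _
      fin_cases i <;> exact hv
    · intro i j hi hj hij
      exfalso
      apply hij
      ext
      omega
    · intro z hz hne
      have z0 : z ≠ v := hne 0 (by norm_num)
      have a0 : N G z v = 4 := by
        rcases N_cases H hz hv z0 with c0 | c0
        · exact c0
        · exfalso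
          rw [N_comm] at c0
          exact h1 z hz c0
      intro i _
      fin_cases i <;> exact a0

/-- a triangle has radius two -/
theorem tri_rho (H : Hole G x ρ) {a b c : Fin r → ℤ} (ha : sd G x a = ρ) (hb : sd G x b = ρ)
    (hc : sd G x c = ρ) (h1 : N G a b = 6) (h2 : N G a c = 6) (h3 : N G b c = 6) : ρ = 2 := by
  have i1 := inner_eq H ha hb
  have i2 := inner_eq H ha hc
  have i3 := inner_eq H hb hc
  have s1 := ha
  have s2 := hb
  have s3 := hc
  rw [sd_eq] at s1 s2 s3
  have hcm := bf_comm (R := ℝ) H.er.symm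
  have h := real_nonneg H.er (pt x a + pt x b + pt x c)
  simp only [bf_add_left, bf_add_right] at h
  rw [hcm (pt x b) (pt x a), hcm (pt x c) (pt x a), hcm (pt x c) (pt x b), i1, i2, i3, s1, s2, s3,
    h1, h2, h3] at h
  push_cast at h
  have := H.le
  linarith

/-- next to a triangle there are no classes of size one -/
theorem no_one (H : Hole G x ρ) (hρ : ρ = 2) {c : Fin 3 → Fin r → ℤ} (hc : Cls G x ρ 1 c) :
    False := by
  have h0 := hc.mem 0 (by norm_num)
  have s0 := h0
  rw [sd_eq] at s0
  have hd : -pt x (c 0) ≠ 0 := by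
    intro h
    rw [neg_eq_zero] at h
    rw [h, bf_zero_left] at s0
    linarith
  obtain ⟨v, hv, h1⟩ := H.sur _ hd
  change 0 < bf G (-pt x (c 0)) (pt x v) at h1
  rw [bf_neg_left] at h1
  by_cases hv0 : v = c 0
  · rw [hv0, s0] at h1
    linarith
  · have h2 := hc.out v hv (by
      intro i hi
      have : i = 0 := by
        ext
        have := hi
        simp only [Fin.val_zero]
        omega
      rw [this]
      exact hv0) 0 (by norm_num)
    rw [N_comm] at h2
    rw [inner_eq H h0 hv, h2] at h1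
    push_cast at h1
    linarith

/-- next to a triangle there are no classes of size two -/
theorem no_two (H : Hole G x ρ) (hρ : ρ = 2) {c : Fin 3 → Fin r → ℤ} (hc : Cls G x ρ 2 c) :
    False := by
  have h0 := hc.mem 0 (by norm_num)
  have h1 := hc.mem 1 (by norm_num)
  have h01 := hc.adj 0 1 (by norm_num) (by norm_num) (by decide)
  have i01 := inner_eq H h0 h1
  rw [h01] at i01
  have s0 := h0
  have s1 := h1
  rw [sd_eq] at s0 s1
  have hcm := bf_comm (R := ℝ) H.er.symm
  push_cast at i01
  have i10 : bf G (pt x (c 1)) (pt x (c 0)) = ρ - 6 / 2 := by rw [hcm]; exact i01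
  have hd : -(pt x (c 0) + pt x (c 1)) ≠ 0 := by
    intro h
    rw [neg_eq_zero] at h
    have h2 : bf G (pt x (c 0) + pt x (c 1)) (pt x (c 0) + pt x (c 1)) = 0 := by
      rw [h, bf_zero_left]
    rw [bf_add_left, bf_add_right, bf_add_right, s0, s1, i01, i10] at h2
    linarith
  obtain ⟨v, hv, h3⟩ := H.sur _ hd
  change 0 < bf G (-(pt x (c 0) + pt x (c 1))) (pt x v) at h3
  rw [bf_neg_left, bf_add_left] at h3
  by_cases hv0 : v = c 0
  · rw [hv0, s0, i10] at h3
    linarith
  by_cases hv1 : v = c 1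
  · rw [hv1, s1, i01] at h3
    linarith
  have h4 : ∀ i : Fin 3, i.val < 2 → v ≠ c i := by
    intro i hi
    fin_cases i
    · exact hv0
    · exact hv1
    · exact absurd hi (by decide)
  have h5 := hc.out v hv h4 0 (by norm_num)
  have h6 := hc.out v hv h4 1 (by norm_num)
  rw [N_comm] at h5 h6
  rw [inner_eq H h0 hv, inner_eq H h1 hv, h5, h6] at h3
  push_cast at h3
  linarith

/-- three classes of size two cannot be everything -/
theorem no_six (H : Hole G x ρ) {p p' q q' s s' : Fin r → ℤ}
    (hp : N G p p' = 6) (hq : N G q q' = 6) (hs : N G s s' = 6)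
    (pq : N G p q = 4) (pq' : N G p q' = 4) (p'q : N G p' q = 4) (p'q' : N G p' q' = 4)
    (ps : N G p s = 4) (ps' : N G p s' = 4) (p's : N G p' s = 4) (p's' : N G p' s' = 4)
    (qs : N G q s = 4) (qs' : N G q s' = 4) (q's : N G q' s = 4) (q's' : N G q' s' = 4)
    (hV : ∀ z, sd G x z = ρ → z = p ∨ z = p' ∨ z = q ∨ z = q' ∨ z = s ∨ z = s') : False := by
  have e1 : bf G (p + p' + s - q - q' - s') (p + p' + s - q - q' - s') = 10 := by
    rw [N_six H.er, N_comm s q, N_comm s q', pq, pq', ps', p'q, p'q', p's', qs, q's, hs, hp, ps,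
      p's, hq, qs', q's']
    norm_num
  have e2 : bf G (p + p' + s' - q - q' - s) (p + p' + s' - q - q' - s) = 10 := by
    rw [N_six H.er, N_comm s' q, N_comm s' q', N_comm s' s, pq, pq', ps, p'q, p'q', p's, qs', q's',
      hs, hp, ps', p's', hq, qs, q's]
    norm_num
  have e3 : bf G (p + p' + q - s - s' - q') (p + p' + q - s - s' - q') = 10 := by
    rw [N_six H.er, N_comm s q', N_comm s' q', ps, ps', pq', p's, p's', p'q', qs, qs', hq, hp, pq,
      p'q, hs, q's, q's']
    norm_num
  obtain ⟨t, ht6, ht1, ht2⟩ := exists_orth H.er H.cov H.no8 _ e1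
  have r2 : p + p' + s' - q - q' - s =
      (p + p' + s - q - q' - s') + ((s' - s) + (s' - s)) := by abel
  have r3 : p + p' + q - s - s' - q' =
      (p + p' + s - q - q' - s') + ((q - s) + (q - s)) := by abel
  rw [r2] at e2
  rw [r3] at e3
  have o2 := ht2 _ e2
  have o3 := ht2 _ e3
  have e4 : bf G (p + p' + q' - s - s' - q) (p + p' + q' - s - s' - q) = 10 := by
    rw [N_six H.er, N_comm s q, N_comm s' q, N_comm q' q, ps, ps', pq, p's, p's', p'q, q's, q's',
      hq, hp, pq', p'q', hs, qs, qs']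
    norm_num
  have r4 : p + p' + q' - s - s' - q =
      (p + p' + s - q - q' - s') + ((q' - s) + (q' - s)) := by abel
  rw [r4] at e4
  have o4 := ht2 _ e4
  have e5 : bf G (q + q' + p - s - s' - p') (q + q' + p - s - s' - p') = 10 := by
    rw [N_six H.er, N_comm q p, N_comm q' p, N_comm q p', N_comm q' p', N_comm s p', N_comm s' p',
      pq, pq', p'q, p'q', ps, ps', p's, p's', qs, qs', q's, q's', hp, hq, hs]
    norm_num
  have r5 : q + q' + p - s - s' - p' =
      (p + p' + s - q - q' - s') + ((q + q' - p' - s) + (q + q' - p' - s)) := by abel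
  rw [r5] at e5
  have o5 := ht2 _ e5
  have e6 : bf G (q + q' + p' - s - s' - p) (q + q' + p' - s - s' - p) = 10 := by
    rw [N_six H.er, N_comm q p, N_comm q' p, N_comm q p', N_comm q' p', N_comm s p, N_comm s' p,
      N_comm p' p,
      pq, pq', p'q, p'q', ps, ps', p's, p's', qs, qs', q's, q's', hp, hq, hs]
    norm_num
  have r6 : q + q' + p' - s - s' - p =
      (p + p' + s - q - q' - s') + ((q + q' - p - s) + (q + q' - p - s)) := by abel
  rw [r6] at e6
  have o6 := ht2 _ e6
  simp only [bf_add_right, bf_sub_right] at ht1 o2 o3 o4 o5 o6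
  have ht0 : t = 0 := by
    apply span_int H
    intro y z hy hz
    rw [bf_sub_right]
    rcases hV y hy with rfl | rfl | rfl | rfl | rfl | rfl <;>
      rcases hV z hz with rfl | rfl | rfl | rfl | rfl | rfl <;> omega
  rw [ht0, bf_zero_left] at ht6
  omega

/-- the list of vertices -/
def lst (k0 k1 k2 : ℕ) : List (Fin 9) :=
  (List.finRange 9).filter (fun i => i.val % 3 < (if i.val / 3 = 0 then k0 else
    if i.val / 3 = 1 then k1 else k2))

theorem lst_mem : ∀ k0 k1 k2 : Fin 4, k1 ≤ k0 → k2 ≤ k1 → k0 ≠ 0 →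
    (k0 = 3 → (k1 = 3 ∨ k1 = 0) ∧ (k2 = 3 ∨ k2 = 0)) → ¬ (k0 = 2 ∧ k1 = 2 ∧ k2 = 2) →
    lst k0.val k1.val k2.val ∈ pats9 := by
  have h : ∀ k0 k1 k2 : Fin 4, lst k0.val k1.val k2.val ∈ pats9 ∨ ¬ (k1 ≤ k0) ∨ ¬ (k2 ≤ k1) ∨
      k0 = 0 ∨ (k0 = 3 ∧ ((k1 ≠ 3 ∧ k1 ≠ 0) ∨ (k2 ≠ 3 ∧ k2 ≠ 0))) ∨
      (k0 = 2 ∧ k1 = 2 ∧ k2 = 2) := by decide
  intro k0 k1 k2 h1 h2 h3 h4 h5
  rcases h k0 k1 k2 with h | h | h | h | ⟨h, h'⟩ | h
  · exact h
  · exact absurd h1 h
  · exact absurd h2 h
  · exact absurd h h3
  · have := h4 h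
    tauto
  · exact absurd h h5

theorem sort3 : ∀ k0 k1 k2 : Fin 4, ∃ σ : Equiv.Perm (Fin 3),
    ![k0, k1, k2] (σ 1) ≤ ![k0, k1, k2] (σ 0) ∧ ![k0, k1, k2] (σ 2) ≤ ![k0, k1, k2] (σ 1) := by
  decide

theorem sort3' (K : Fin 3 → Fin 4) : ∃ σ : Equiv.Perm (Fin 3),
    K (σ 1) ≤ K (σ 0) ∧ K (σ 2) ≤ K (σ 1) := by
  have h := sort3 (K 0) (K 1) (K 2)
  have hK : ![K 0, K 1, K 2] = K := by
    funext i
    fin_cases i <;> rfl
  rw [hK] at h
  exact h

/-- the pattern of a sorted system of classes -/
theorem pat_sorted (H : Hole G x ρ) (K : Fin 3 → Fin 4) (c : Fin 3 → Fin 3 → Fin r → ℤ)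
    (hC : ∀ a, Cls G x ρ (K a).val (c a))
    (hdis : ∀ a b, a ≠ b → ∀ i j : Fin 3, i.val < (K a).val → j.val < (K b).val →
      c a i ≠ c b j)
    (hcov : ∀ z, sd G x z = ρ → ∃ (a i : Fin 3), i.val < (K a).val ∧ z = c a i)
    (h10 : K 1 ≤ K 0) (h21 : K 2 ≤ K 1) :
    ∃ l ∈ pats9, HasPat G adj9 l := by
  refine ⟨lst (K 0).val (K 1).val (K 2).val, lst_mem _ _ _ h10 h21 ?_ ?_ ?_, ?_⟩
  · intro h0
    obtain ⟨z, hz⟩ := H.ne
    obtain ⟨a, i, hi, -⟩ := hcov z hz
    have : K a = 0 := by
      fin_cases a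
      · exact h0
      · exact le_antisymm (h10.trans h0.le) (Fin.zero_le _)
      · exact le_antisymm ((h21.trans h10).trans h0.le) (Fin.zero_le _)
    rw [this] at hi
    exact absurd hi (by simp)
  · intro h0
    have hC0 := hC 0
    rw [h0] at hC0
    have hρ : ρ = 2 := tri_rho H (hC0.mem 0 (by decide)) (hC0.mem 1 (by decide))
      (hC0.mem 2 (by decide)) (hC0.adj 0 1 (by decide) (by decide) (by decide))
      (hC0.adj 0 2 (by decide) (by decide) (by decide))
      (hC0.adj 1 2 (by decide) (by decide) (by decide))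
    have key : ∀ a, K a = 3 ∨ K a = 0 := by
      intro a
      have hCa := hC a
      have h4 : ∀ k : Fin 4, k = 3 ∨ k = 0 ∨ k = 1 ∨ k = 2 := by decide
      rcases h4 (K a) with h | h | h | h
      · exact Or.inl h
      · exact Or.inr h
      · rw [h] at hCa
        exact (no_one H hρ hCa).elim
      · rw [h] at hCa
        exact (no_two H hρ hCa).elim
    exact ⟨key 1, key 2⟩
  · rintro ⟨h0, h1, h2⟩
    have hC0 := hC 0
    have hC1 := hC 1
    have hC2 := hC 2
    rw [h0] at hC0
    rw [h1] at hC1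
    rw [h2] at hC2
    have hK : ∀ a, (K a).val = 2 := by
      intro a
      fin_cases a
      · simp only [Fin.zero_eta]; rw [h0]; rfl
      · simp only [Fin.mk_one]; rw [h1]; rfl
      · simp only [Fin.reduceFinMk]; rw [h2]; rfl
    have hN : ∀ a b, a ≠ b → ∀ i j : Fin 3, i.val < 2 → j.val < 2 → N G (c a i) (c b j) = 4 := by
      intro a b hab i j hi hj
      have hCb := hC b
      rw [hK] at hCb
      have hCa := hC a
      rw [hK] at hCa
      refine hCb.out (c a i) (hCa.mem i hi) ?_ j hj
      intro k hk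
      exact hdis a b hab i k (by rw [hK]; exact hi) (by rw [hK]; exact hk)
    refine no_six H (p := c 0 0) (p' := c 0 1) (q := c 1 0) (q' := c 1 1) (s := c 2 0)
      (s' := c 2 1) (hC0.adj 0 1 (by decide) (by decide) (by decide))
      (hC1.adj 0 1 (by decide) (by decide) (by decide))
      (hC2.adj 0 1 (by decide) (by decide) (by decide))
      (hN 0 1 (by decide) _ _ (by decide) (by decide)) (hN 0 1 (by decide) _ _ (by decide) (by decide))
      (hN 0 1 (by decide) _ _ (by decide) (by decide)) (hN 0 1 (by decide) _ _ (by decide) (by decide))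
      (hN 0 2 (by decide) _ _ (by decide) (by decide)) (hN 0 2 (by decide) _ _ (by decide) (by decide))
      (hN 0 2 (by decide) _ _ (by decide) (by decide)) (hN 0 2 (by decide) _ _ (by decide) (by decide))
      (hN 1 2 (by decide) _ _ (by decide) (by decide)) (hN 1 2 (by decide) _ _ (by decide) (by decide))
      (hN 1 2 (by decide) _ _ (by decide) (by decide)) (hN 1 2 (by decide) _ _ (by decide) (by decide))
      ?_
    intro z hz
    obtain ⟨a, i, hi, rfl⟩ := hcov z hz
    rw [hK] at hi
    fin_cases a <;> fin_cases i <;> first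
      | exact absurd hi (by decide)
      | simp
  · -- the pattern
    set K' : ℕ → ℕ := fun a => if a = 0 then (K 0).val else if a = 1 then (K 1).val else
      (K 2).val with hK'
    have hKa : ∀ a : Fin 3, K' a.val = (K a).val := by
      intro a
      fin_cases a <;> rfl
    let A : Fin 9 → Fin 3 := fun i => ⟨i.val / 3, by omega⟩
    let B : Fin 9 → Fin 3 := fun i => ⟨i.val % 3, by omega⟩
    have hmem : ∀ i : Fin 9, i ∈ lst (K 0).val (K 1).val (K 2).val ↔ (B i).val < (K (A i)).val := by
      intro i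
      rw [← hKa (A i)]
      simp only [lst, List.mem_filter, List.mem_finRange, true_and, decide_eq_true_eq]
      rfl
    refine pat_of H adj9 _ (fun i => c (A i) (B i)) ?_ ?_
    · intro i hi j hj hij
      rw [hmem] at hi hj
      by_cases hAB : A i = A j
      · have h1 : adj9 i j = true := by
          simp only [adj9, beq_iff_eq]
          exact congrArg Fin.val hAB
        rw [if_pos h1]
        have h2 : B i ≠ B j := by
          intro h3
          apply hij
          have h4 := congrArg Fin.val hAB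
          have h5 := congrArg Fin.val h3
          simp only [A, B] at h4 h5
          ext
          omega
        show N G (c (A i) (B i)) (c (A j) (B j)) = 6
        rw [← hAB] at hj ⊢
        exact (hC (A i)).adj _ _ hi hj h2
      · have h1 : ¬ (adj9 i j = true) := by
          simp only [adj9, beq_iff_eq]
          intro h
          exact hAB (Fin.ext h)
        rw [if_neg h1]
        show N G (c (A i) (B i)) (c (A j) (B j)) = 4
        exact (hC (A j)).out _ ((hC (A i)).mem _ hi) (fun k hk => hdis _ _ hAB _ _ hi hk) _ hj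
    · intro z hz
      obtain ⟨a, i, hi, rfl⟩ := hcov z hz
      have hA : A ⟨3 * a.val + i.val, by omega⟩ = a := by
        ext
        simp only [A]
        omega
      have hB : B ⟨3 * a.val + i.val, by omega⟩ = i := by
        ext
        simp only [B]
        omega
      refine ⟨⟨3 * a.val + i.val, by omega⟩, ?_, ?_⟩
      · rw [hmem, hA, hB]
        exact hi
      · rw [hA, hB]

theorem pat_classes (H : Hole G x ρ) (K : Fin 3 → Fin 4) (c : Fin 3 → Fin 3 → Fin r → ℤ)
    (hC : ∀ a, Cls G x ρ (K a).val (c a))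
    (hdis : ∀ a b, a ≠ b → ∀ i j : Fin 3, i.val < (K a).val → j.val < (K b).val →
      c a i ≠ c b j)
    (hcov : ∀ z, sd G x z = ρ → ∃ (a i : Fin 3), i.val < (K a).val ∧ z = c a i) :
    ∃ l ∈ pats9, HasPat G adj9 l := by
  obtain ⟨σ, h1, h2⟩ := sort3' K
  refine pat_sorted H (K ∘ σ) (c ∘ σ) (fun a => hC (σ a)) ?_ ?_ h1 h2
  · intro a b hab i j hi hj
    exact hdis (σ a) (σ b) (fun h => hab (σ.injective h)) i j hi hj
  · intro z hz
    obtain ⟨a, i, hi, hzi⟩ := hcov z hz
    refine ⟨σ.symm a, i, ?_, ?_⟩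
    · simpa using hi
    · simpa using hzi

/-- disjointness of classes -/
theorem cls_dis {k k' : ℕ} {c c' : Fin 3 → Fin r → ℤ} (hc : Cls G x ρ k c)
    (hc' : Cls G x ρ k' c') (h0 : 0 < k') (hout : ∀ i : Fin 3, i.val < k → c' 0 ≠ c i)
    (i j : Fin 3) (hi : i.val < k) (hj : j.val < k') : c i ≠ c' j := by
  intro h
  have h1 := hc.out (c' 0) (hc'.mem 0 h0) hout i hi
  by_cases hj0 : j = 0
  · rw [hj0] at h
    exact hout i hi h.symm
  · have h2 := hc'.adj 0 j h0 hj (fun h => hj0 h.symm)
    rw [← h] at h2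
    omega

theorem main (H : Hole G x ρ)
    (ht : ∀ a v b, sd G x a = ρ → sd G x v = ρ → sd G x b = ρ → N G a v = 6 → N G v b = 6 →
      a ≠ b → N G a b = 6) :
    ∃ l ∈ pats9, HasPat G adj9 l := by
  obtain ⟨v0, hv0⟩ := H.ne
  obtain ⟨k0, c0, k0p, k0l, hC0, hc0⟩ := exists_cls H ht hv0
  by_cases hall0 : ∀ z, sd G x z = ρ → ∃ i : Fin 3, i.val < k0 ∧ z = c0 i
  · refine pat_classes H ![⟨k0, k0l⟩, 0, 0] ![c0, fun _ => 0, fun _ => 0] ?_ ?_ ?_
    · intro a
      fin_cases a
      · exact hC0
      · exact cls_zero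
      · exact cls_zero
    · intro a b hab i j hi hj
      fin_cases a <;> fin_cases b <;> first
        | exact absurd rfl hab
        | exact absurd hi (Nat.not_lt_zero _)
        | exact absurd hj (Nat.not_lt_zero _)
    · intro z hz
      obtain ⟨i, hi, h⟩ := hall0 z hz
      exact ⟨0, i, hi, h⟩
  push Not at hall0
  obtain ⟨v1, hv1, hv1o⟩ := hall0
  obtain ⟨k1, c1, k1p, k1l, hC1, hc1⟩ := exists_cls H ht hv1
  have d01 := cls_dis hC0 hC1 k1p (by rw [hc1]; exact hv1o)
  by_cases hall1 : ∀ z, sd G x z = ρ → (∃ i : Fin 3, i.val < k0 ∧ z = c0 i) ∨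
      ∃ i : Fin 3, i.val < k1 ∧ z = c1 i
  · refine pat_classes H ![⟨k0, k0l⟩, ⟨k1, k1l⟩, 0] ![c0, c1, fun _ => 0] ?_ ?_ ?_
    · intro a
      fin_cases a
      · exact hC0
      · exact hC1
      · exact cls_zero
    · intro a b hab i j hi hj
      fin_cases a <;> fin_cases b <;> first
        | exact absurd rfl hab
        | exact absurd hi (Nat.not_lt_zero _)
        | exact absurd hj (Nat.not_lt_zero _)
        | exact d01 i j hi hj
        | exact (d01 j i hj hi).symm
    · intro z hz
      rcases hall1 z hz with ⟨i, hi, h⟩ | ⟨i, hi, h⟩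
      · exact ⟨0, i, hi, h⟩
      · exact ⟨1, i, hi, h⟩
  push Not at hall1
  obtain ⟨v2, hv2, hv2o, hv2o'⟩ := hall1
  obtain ⟨k2, c2, k2p, k2l, hC2, hc2⟩ := exists_cls H ht hv2
  have d02 := cls_dis hC0 hC2 k2p (by rw [hc2]; exact hv2o)
  have d12 := cls_dis hC1 hC2 k2p (by rw [hc2]; exact hv2o')
  refine pat_classes H ![⟨k0, k0l⟩, ⟨k1, k1l⟩, ⟨k2, k2l⟩] ![c0, c1, c2] ?_ ?_ ?_
  · intro a
    fin_cases a
    · exact hC0
    · exact hC1
    · exact hC2
  · intro a b hab i j hi hj
    fin_cases a <;> fin_cases b <;> first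
      | exact absurd rfl hab
      | exact d01 i j hi hj
      | exact (d01 j i hj hi).symm
      | exact d02 i j hi hj
      | exact (d02 j i hj hi).symm
      | exact d12 i j hi hj
      | exact (d12 j i hj hi).symm
  · intro z hz
    by_contra hno
    push Not at hno
    have n0 : ∀ i : Fin 3, i.val < k0 → z ≠ c0 i := fun i hi => hno 0 i hi
    have n1 : ∀ i : Fin 3, i.val < k1 → z ≠ c1 i := fun i hi => hno 1 i hi
    have n2 : ∀ i : Fin 3, i.val < k2 → z ≠ c2 i := fun i hi => hno 2 i hi
    have m0 := hC0.mem 0 k0p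
    have m1 := hC1.mem 0 k1p
    have m2 := hC2.mem 0 k2p
    have a0 := hC0.out z hz n0 0 k0p
    have a1 := hC1.out z hz n1 0 k1p
    have a2 := hC2.out z hz n2 0 k2p
    have b10 := hC1.out (c0 0) m0 (fun i hi => d01 0 i k0p hi) 0 k1p
    have b20 := hC2.out (c0 0) m0 (fun i hi => d02 0 i k0p hi) 0 k2p
    have b21 := hC2.out (c1 0) m1 (fun i hi => d12 0 i k1p hi) 0 k2p
    have k := four H hz m0 m1 m2 (ne_of4 a0) (ne_of4 a1) (ne_of4 a2) (ne_of4 b10) (ne_of4 b20)
      (ne_of4 b21)
    omega

/-- GRAPH -/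
theorem job (h0 : JobHole0) (h1 : JobHole1) : JobGraph := by
  intro r G hER hCov h8
  obtain ⟨x, ρ, hle, hex⟩ := h0 r G hER.toPosD
  have H : Hole G x ρ := by
    refine ⟨hER, hCov, h8, ?_, ?_, h1 r G hER.toPosD x ρ hle hex⟩
    · obtain ⟨v, hv⟩ := hCov x
      exact (hle v).trans hv
    · obtain ⟨v, hv⟩ := hex x
      exact ⟨v, le_antisymm hv (hle v)⟩
  by_cases hpath : ∃ a v b, sd G x a = ρ ∧ sd G x v = ρ ∧ sd G x b = ρ ∧ N G a v = 6 ∧
      N G v b = 6 ∧ N G a b = 4
  · obtain ⟨a, v, b, ha, hv, hb, e1, e2, e3⟩ := hpath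
    exact Or.inr (pent H ha hv hb e1 e2 e3)
  · push Not at hpath
    refine Or.inl (main H ?_)
    intro a v b ha hv hb e1 e2 hab
    rcases N_cases H ha hb hab with h | h
    · exact absurd h (hpath a v b ha hv hb e1 e2)
    · exact h

end Pool.Agent.Y79.LE
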